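import Mathlib
import Pool.Agent.H98.Spacing

set_option autoImplicit false

namespace Pool.Agent.Results.MP_bfac72_an.NotFilter

open Set Filter Topology Pool.Agent.H98.Spacing
open scoped Classical

/-- topological transitivity. -/
def Trans {X : Type} [TopologicalSpace X] (T : X → X) : Prop :=
  ∀ U V : Set X, IsOpen U → IsOpen V → U.Nonempty → V.Nonempty →
    ∃ n : ℕ, (T^[n] '' U ∩ V).Nonempty

/-- the set `S_T(U, δ)`. -/
def sens {X : Type} [MetricSpace X] (T : X → X) (U : Set X) (δ : ℝ) : Set ℕ :=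
  {n | ∃ x ∈ U, ∃ y ∈ U, δ < dist (T^[n] x) (T^[n] y)}

/-- the family of all sets containing some `S_T(U, δ)` with `U` open and nonempty. -/
def fam {X : Type} [MetricSpace X] (T : X → X) (δ : ℝ) : Set (Set ℕ) :=
  {A | ∃ U : Set X, IsOpen U ∧ U.Nonempty ∧ sens T U δ ⊆ A}

/-- a proper family closed under finite intersections. -/
def IsFilt (F : Set (Set ℕ)) : Prop :=
  F.Nonempty ∧ F ≠ univ ∧ ∀ A ∈ F, ∀ B ∈ F, A ∩ B ∈ F

/-- thick subsets of the natural numbers. -/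
def IsThick (A : Set ℕ) : Prop := ∀ L : ℕ, ∃ a : ℕ, ∀ i < L, a + i ∈ A

def P0 : Set ℕ := {n | ∀ j, 4 ^ (j + 1) ≤ n → 4 ^ (j + 1) + (Nat.unpair j).1 ≤ n}

lemma lt4 (j : ℕ) : j < 4 ^ j := Nat.lt_pow_self (by norm_num)

lemma mem_P0 {j n : ℕ} (h1 : 2 * 4 ^ j ≤ n) (h2 : n < 4 ^ (j + 2))
    (h3 : 4 ^ (j + 1) ≤ n → 4 ^ (j + 1) + (Nat.unpair j).1 ≤ n) : n ∈ P0 := by
  intro i hi
  rcases lt_trichotomy i j with h | rfl | h
  · have a1 : 4 ^ (i + 1) ≤ 4 ^ j := Nat.pow_le_pow_right (by norm_num) h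
    have a2 := Nat.unpair_left_le i
    have a3 := lt4 j
    omega
  · exact h3 hi
  · have a1 : 4 ^ (j + 2) ≤ 4 ^ (i + 1) := Nat.pow_le_pow_right (by norm_num) (by omega)
    omega

lemma thick : Thick P0 := by
  intro L
  refine ⟨2 * 4 ^ (L + 1), fun i hi => ?_⟩
  have a1 := lt4 L
  have a2 := Nat.unpair_left_le L
  have e1 : 4 ^ (L + 1) = 4 * 4 ^ L := by ring
  have e2 : 4 ^ (L + 2) = 16 * 4 ^ L := by ring
  exact mem_P0 (j := L) (by omega) (by omega) (by omega)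

attribute [local instance] met

lemma dist_le {x y : SP P0} {K : ℕ} (h : ∀ i < K, x.1 i = y.1 i) : dist x y ≤ (1 / 2) ^ K :=
  (PiNat.mem_cylinder_iff_dist_le (E := fun _ : ℕ => Bool) (x := y.1) (y := x.1)).1 h

lemma dist_gt {x y : SP P0} {δ : ℝ} (hδ : δ < 1) (h : x.1 0 ≠ y.1 0) : δ < dist x y := by
  by_contra hc
  exact h (PiNat.apply_eq_of_dist_lt (E := fun _ : ℕ => Bool) (x := x.1) (y := y.1) (n := 0)
    (lt_of_le_of_lt (not_lt.1 hc) (by simpa using hδ)) le_rfl)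

lemma mem_sens {W : Set (SP P0)} {z : SP P0} {m n : ℕ} {δ : ℝ} (hδ : δ < 1)
    (hm : ∀ y : SP P0, (∀ i < m, y.1 i = z.1 i) → y ∈ W) (hmn : m ≤ n)
    (h : ∀ f < m, z.1 f = true → n - f ∈ P0) : n ∈ sens sh W δ := by
  refine ⟨⟨fun i => if i < m then z.1 i else false, fun i j hij hi hj => ?_⟩,
    hm _ fun i hi => by simp [hi],
    ⟨fun i => if i < m then z.1 i else decide (i = n), fun i j hij hi hj => ?_⟩,
    hm _ fun i hi => by simp [hi], dist_gt hδ ?_⟩
  · beta_reduce at hi hj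
    split_ifs at hi hj
    exact z.2 i j hij hi hj
  · beta_reduce at hi hj
    split_ifs at hi hj with h1 h2 h2
    · exact z.2 i j hij hi hj
    · rw [decide_eq_true_eq] at hj
      rw [hj]; exact h i h1 hi
    · omega
    · rw [decide_eq_true_eq] at hi hj
      omega
  · rw [sh_iter, sh_iter]
    have : ¬ n < m := by omega
    simp [this]

theorem result : ∃ (X : Type) (_ : MetricSpace X) (_ : CompactSpace X) (T : X → X),
    Nontrivial X ∧ Continuous T ∧ Function.Surjective T ∧ Trans T ∧ Trans (Prod.map T T) ∧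
    (∃ δ > 0, ∀ U : Set X, IsOpen U → U.Nonempty → IsThick (sens T U δ)) ∧
    ∀ δ > 0, ¬ IsFilt (fam T δ) := by
  refine ⟨SP P0, met P0, (inferInstance : CompactSpace (SP P0)), sh,
    ⟨one _ 0, zero _, fun h => ?_⟩, sh_cont, sh_surj, ?_, ?_, ⟨1 / 2, by norm_num, ?_⟩, ?_⟩
  · have := one_self (P := P0) 0
    rw [h] at this
    cases this
  · intro U V hU hV n1 n2
    obtain ⟨n, -, z, hz1, hz2⟩ := wm thick (U ×ˢ U) (V ×ˢ V) (hU.prod hU) (hV.prod hV)
      (n1.prod n1) (n2.prod n2)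
    exact ⟨n, _, ⟨z.1, hz1.1, rfl⟩, hz2.1⟩
  · intro U V hU hV n1 n2
    obtain ⟨n, -, z, hz1, hz2⟩ := wm thick U V hU hV n1 n2
    exact ⟨n, _, ⟨z, hz1, rfl⟩, by rw [Prod.map_iterate]; exact hz2⟩
  · rintro U hU ⟨z, hz⟩ L
    obtain ⟨m, hm⟩ := cyl (hU.mem_nhds hz)
    obtain ⟨a, ha⟩ := thick (m + L + 1)
    refine ⟨a + m, fun i hi => mem_sens (by norm_num) hm (by omega) fun f hf _ => ?_⟩
    have := ha (m + i - f) (by omega)
    have e : a + (m + i - f) = a + m + i - f := by omega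
    rwa [e] at this
  · rintro δ hδ ⟨-, h2, h3⟩
    have hδ1 : δ < 1 := by
      by_contra hc
      refine h2 (eq_univ_of_forall fun A => ⟨univ, isOpen_univ, univ_nonempty, ?_⟩)
      rintro n ⟨x, -, y, -, h⟩
      have := dist_le (x := sh^[n] x) (y := sh^[n] y) (K := 0) (by simp)
      simp only [pow_zero] at this
      linarith
    obtain ⟨K, hK⟩ := exists_pow_lt_of_lt_one hδ (show (1 / 2 : ℝ) < 1 by norm_num)
    obtain ⟨a, ha, haK⟩ : ∃ a, (∀ d, a < d + K → d < a + K → d ∉ P0) ∧ 2 * K ≤ a := by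
      obtain ⟨j, hj⟩ : ∃ j, (Nat.unpair j).1 = 2 * K + 1 := ⟨Nat.pair (2 * K + 1) 0, by simp⟩
      have a1 := lt4 j
      have a2 := Nat.unpair_left_le j
      have e1 : 4 ^ (j + 1) = 4 * 4 ^ j := by ring
      refine ⟨4 ^ (j + 1) + K, fun d h1 h2 hd => ?_, by omega⟩
      have := hd j (by omega)
      omega
    obtain ⟨W, hW, ⟨z, hz⟩, hWs⟩ := h3 (sens sh {x | x.1 K = true} δ)
      ⟨_, coord_open K true, ⟨one _ K, one_self K⟩, subset_rfl⟩
      (sens sh {x | x.1 (K + a) = true} δ)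
      ⟨_, coord_open (K + a) true, ⟨one _ (K + a), one_self _⟩, subset_rfl⟩
    obtain ⟨m, hm⟩ := cyl (hW.mem_nhds hz)
    have key : ∀ c, (∀ f, z.1 f = true → c < f + K → f ≤ c → False) →
        ∃ n ∈ sens sh W δ, n ∉ sens sh {x : SP P0 | x.1 c = true} δ := by
      intro c hc
      obtain ⟨j, a1, e3⟩ : ∃ j, m + c ≤ j ∧ (Nat.unpair j).1 = K :=
        ⟨Nat.pair K (m + c), Nat.right_le_pair _ _, by simp⟩
      have a2 := lt4 j
      have e1 : 4 ^ (j + 1) = 4 * 4 ^ j := by ring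
      have e2 : 4 ^ (j + 2) = 16 * 4 ^ j := by ring
      refine ⟨4 ^ (j + 1) + c, mem_sens hδ1 hm (by omega) fun f hf hzf =>
        mem_P0 (j := j) (by omega) (by omega) fun h => ?_, ?_⟩
      · by_contra hcon
        exact hc f hzf (by omega) (by omega)
      · rintro ⟨x, hx, y, hy, h⟩
        have hz0 : ∀ x : SP P0, x.1 c = true → ∀ i < K, (sh^[4 ^ (j + 1) + c] x).1 i = false := by
          intro x hx i hi
          rw [sh_iter]
          by_contra hcon
          have := x.2 c (i + (4 ^ (j + 1) + c)) (by omega) hx (by simpa using hcon) j (by omega)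
          omega
        have := dist_le (x := sh^[4 ^ (j + 1) + c] x) (y := sh^[4 ^ (j + 1) + c] y) (K := K)
          fun i hi => by rw [hz0 x hx i hi, hz0 y hy i hi]
        linarith
    by_cases h1 : ∃ f, z.1 f = true ∧ K < f + K ∧ f ≤ K
    · obtain ⟨f, hf1, hf2, hf3⟩ := h1
      obtain ⟨n, hn1, hn2⟩ := key (K + a) fun g hg1 hg2 hg3 =>
        ha (g - f) (by omega) (by omega) (z.2 f g (by omega) hf1 hg1)
      exact hn2 (hWs hn1).2
    · obtain ⟨n, hn1, hn2⟩ := key K fun g hg1 hg2 hg3 => h1 ⟨g, hg1, hg2, hg3⟩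
      exact hn2 (hWs hn1).1

end Pool.Agent.Results.MP_bfac72_an.NotFilter
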